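import Mathlib

set_option autoImplicit false

/-!
# No ten vectors in `[6]^4` are pairwise increasing in three coordinates

A vector `(y 0, y 1, y 2, y 3)` with entries in `{0, ..., 5}` is coded by `y 0 + 6 y 1 + 36 y 2 + 216 y 3 < 1296`, a set
of vectors by the natural number whose bits are its elements.  The search chooses the vectors of a chain from the
largest one on, each of them maximal among the remaining candidates.
-/

namespace Pool.Agent.R72.VecSearch

/-- the powers of six -/
def p6 : ℕ → ℕ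
  | 0 => 1
  | 1 => 6
  | 2 => 36
  | 3 => 216
  | _ => 1296

/-- digit `i` of the code `k` -/
def dig (i k : ℕ) : ℕ := Nat.mod (Nat.div k (p6 i)) 6

/-- all codes -/
def full : ℕ := Nat.sub (Nat.pow 2 1296) 1

/-- the set of all codes whose digit `i` is smaller than `v` -/
def L (i v : ℕ) : ℕ :=
  Nat.mul (Nat.sub (Nat.pow 2 (Nat.mul (p6 i) v)) 1) (Nat.div full (Nat.sub (Nat.pow 2 (p6 (Nat.succ i))) 1))

/-- the codes smaller than the code with digits `a b c d` in at least three digits -/
def V4 (a b c d : ℕ) : ℕ :=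
  Nat.lor (Nat.land (Nat.land (L 0 a) (L 1 b)) (Nat.lor (L 2 c) (L 3 d)))
    (Nat.land (Nat.lor (L 0 a) (L 1 b)) (Nat.land (L 2 c) (L 3 d)))

/-- the codes that are at most the code with digits `a b c d` in all digits -/
def Dn4 (a b c d : ℕ) : ℕ :=
  Nat.land (Nat.land (L 0 (Nat.succ a)) (L 1 (Nat.succ b))) (Nat.land (L 2 (Nat.succ c)) (L 3 (Nat.succ d)))

/-- evaluate the argument first -/
def force (n : ℕ) (f : ℕ → Bool) : Bool :=
  Nat.rec (motive := fun _ => Bool) (f 0) (fun k _ => f (Nat.succ k)) n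

theorem force_eq (n : ℕ) (f : ℕ → Bool) : force n f = f n := by cases n <;> rfl

/-- find the leading digit -/
def fd (w : ℕ) : ℕ → ℕ → (ℕ → ℕ → Bool) → Bool
  | 0, r, k => k 0 r
  | n + 1, r, k => force (Nat.shiftRight r (Nat.mul w (Nat.succ n))) fun t =>
      bif Nat.beq t 0 then fd w n r k else k (Nat.succ n) t

/-- digits of a large element -/
def digs (rem : ℕ) (k : ℕ → ℕ → ℕ → ℕ → Bool) : Bool :=
  fd 216 5 rem fun d r3 => fd 36 5 r3 fun c r2 => fd 6 5 r2 fun b r1 => fd 1 5 r1 fun a _ => k a b c d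

/-- inner loop of the search -/
def loop (f : ℕ → Bool) : ℕ → ℕ → ℕ → Bool
  | 0, _, _ => false
  | n + 1, mask, rem => bif Nat.beq rem 0 then true else
      digs rem fun a b c d =>
      (force (Nat.land mask (V4 a b c d)) f && force (Nat.xor rem (Nat.land rem (Dn4 a b c d))) (loop f n mask))

/-- `search k mask` returns `true` only if the set `mask` contains no chain of length `k` -/
def search : ℕ → ℕ → Bool
  | 0, _ => false
  | k + 1, mask => loop (search k) 64 mask mask

set_option maxRecDepth 100000 in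
theorem search_A : force (Nat.land (Nat.land (V4 5 5 5 5) (V4 4 4 4 5)) (V4 3 3 3 5)) (search 7) = true := by
  decide +kernel

set_option maxRecDepth 100000 in
theorem search_B : force (Nat.land (Nat.land (V4 5 5 5 5) (V4 4 4 4 5)) (V4 5 3 3 4)) (search 7) = true := by
  decide +kernel

/-- check a Boolean function below `n` -/
def allB : ℕ → (ℕ → Bool) → Bool
  | 0, _ => true
  | n + 1, f => f n && allB n f

theorem allB_spec {n : ℕ} {f : ℕ → Bool} (h : allB n f = true) : ∀ k < n, f k = true := by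
  induction n with
  | zero => intro k hk; omega
  | succ n ih =>
    simp only [allB, Bool.and_eq_true] at h
    intro k hk
    rcases Nat.lt_succ_iff_lt_or_eq.1 hk with h1 | h1
    · exact ih h.2 k h1
    · rw [h1]; exact h.1

set_option maxRecDepth 100000 in
theorem L_check : (allB 4 fun i => allB 7 fun v => allB 1296 fun k =>
    (Nat.beq (Nat.land 1 (Nat.shiftRight (L i v) k)) (bif Nat.ble (Nat.succ (dig i k)) v then 1 else 0))) = true := by
  decide +kernel

theorem L_spec {i v k : ℕ} (hi : i < 4) (hv : v < 7) (hk : k < 1296) :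
    (L i v).testBit k = decide (dig i k < v) := by
  have h := allB_spec (allB_spec (allB_spec L_check i hi) v hv) k hk
  have h1 : 1 &&& (L i v >>> k) = (bif Nat.ble (Nat.succ (dig i k)) v then 1 else 0) :=
    Nat.eq_of_beq_eq_true h
  have h2 : (L i v).testBit k = (1 &&& (L i v >>> k) != 0) := rfl
  rw [h2, h1]
  by_cases h3 : dig i k < v
  · have h4 : Nat.ble (Nat.succ (dig i k)) v = true := by
      rw [Nat.ble_eq]
      exact h3
    rw [h4]
    simp [h3]
  · have h4 : Nat.ble (Nat.succ (dig i k)) v = false := by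
      rw [← Bool.not_eq_true, Nat.ble_eq]
      exact h3
    rw [h4]
    simp [h3]

/-- three of four -/
def three (p q r s : Prop) : Prop := (p ∧ q ∧ (r ∨ s)) ∨ ((p ∨ q) ∧ r ∧ s)

theorem V4_spec {a b c d k : ℕ} (ha : a < 7) (hb : b < 7) (hc : c < 7) (hd : d < 7) (hk : k < 1296) :
    (V4 a b c d).testBit k = true ↔ three (dig 0 k < a) (dig 1 k < b) (dig 2 k < c) (dig 3 k < d) := by
  have h : V4 a b c d = ((L 0 a &&& L 1 b) &&& (L 2 c ||| L 3 d)) ||| ((L 0 a ||| L 1 b) &&& (L 2 c &&& L 3 d)) := rfl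
  rw [h]
  simp only [Nat.testBit_or, Nat.testBit_and, L_spec (by norm_num : 0 < 4) ha hk, L_spec (by norm_num : 1 < 4) hb hk,
    L_spec (by norm_num : 2 < 4) hc hk, L_spec (by norm_num : 3 < 4) hd hk, Bool.or_eq_true, Bool.and_eq_true,
    decide_eq_true_eq, three]
  tauto

theorem Dn4_spec {a b c d k : ℕ} (ha : a < 6) (hb : b < 6) (hc : c < 6) (hd : d < 6) (hk : k < 1296) :
    (Dn4 a b c d).testBit k = true ↔ dig 0 k ≤ a ∧ dig 1 k ≤ b ∧ dig 2 k ≤ c ∧ dig 3 k ≤ d := by
  have h : Dn4 a b c d = ((L 0 (a + 1) &&& L 1 (b + 1)) &&& (L 2 (c + 1) &&& L 3 (d + 1))) := rfl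
  rw [h]
  simp only [Nat.testBit_and, L_spec (by norm_num : 0 < 4) (show a + 1 < 7 by omega) hk,
    L_spec (by norm_num : 1 < 4) (show b + 1 < 7 by omega) hk,
    L_spec (by norm_num : 2 < 4) (show c + 1 < 7 by omega) hk,
    L_spec (by norm_num : 3 < 4) (show d + 1 < 7 by omega) hk, Bool.and_eq_true,
    decide_eq_true_eq, Nat.lt_succ_iff]
  tauto

/-- the code `k` is smaller than the code `m` in at least three digits -/
def lt3 (k m : ℕ) : Prop := three (dig 0 k < dig 0 m) (dig 1 k < dig 1 m) (dig 2 k < dig 2 m) (dig 3 k < dig 3 m)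

/-- a chain of `k` codes in the set `mask`, from the largest one on -/
def Chain (k mask : ℕ) (y : ℕ → ℕ) : Prop :=
  (∀ a < k, y a < 1296 ∧ mask.testBit (y a) = true) ∧ ∀ a b, a < b → b < k → lt3 (y b) (y a)

theorem fd_true {w : ℕ} {n r : ℕ} {k : ℕ → ℕ → Bool} (h : fd w n r k = true) : ∃ d ≤ n, ∃ t, k d t = true := by
  induction n with
  | zero => exact ⟨0, le_refl _, r, h⟩
  | succ n ih =>
    rw [fd, force_eq] at h
    cases hb : Nat.beq (Nat.shiftRight r (Nat.mul w (Nat.succ n))) 0
    · rw [hb] at h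
      exact ⟨n + 1, le_refl _, _, h⟩
    · rw [hb] at h
      obtain ⟨d, hd, t, ht⟩ := ih h
      exact ⟨d, by omega, t, ht⟩

theorem digs_true {rem : ℕ} {k : ℕ → ℕ → ℕ → ℕ → Bool} (h : digs rem k = true) :
    ∃ a < 6, ∃ b < 6, ∃ c < 6, ∃ d < 6, k a b c d = true := by
  obtain ⟨d, hd, _, h1⟩ := fd_true h
  obtain ⟨c, hc, _, h2⟩ := fd_true h1
  obtain ⟨b, hb, _, h3⟩ := fd_true h2
  obtain ⟨a, ha, _, h4⟩ := fd_true h3
  exact ⟨a, by omega, b, by omega, c, by omega, d, by omega, h4⟩

theorem three_mono {p q r s p' q' r' s' : Prop} (hp : p → p') (hq : q → q') (hr : r → r') (hs : s → s')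
    (h : three p q r s) : three p' q' r' s' := by
  unfold three at *
  tauto

theorem loop_sound {f : ℕ → Bool} {k : ℕ} (hf : ∀ m, f m = true → ∀ y, ¬ Chain k m y) (mask : ℕ) :
    ∀ n rem : ℕ, loop f n mask rem = true → ∀ y, Chain (k + 1) mask y → rem.testBit (y 0) = true → False := by
  intro n
  induction n with
  | zero => intro rem h; simp [loop] at h
  | succ n ih =>
    intro rem h y hy h0
    rw [loop] at h
    cases hb : Nat.beq rem 0
    · rw [hb] at h
      obtain ⟨a, ha, b, hb', c, hc, d, hd, h1⟩ := digs_true h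
      rw [Bool.and_eq_true, force_eq, force_eq] at h1
      obtain ⟨h1, h2⟩ := h1
      have hy0 := (hy.1 0 (by omega)).1
      by_cases hD : (Dn4 a b c d).testBit (y 0) = true
      · have hD' := (Dn4_spec ha hb' hc hd hy0).1 hD
        refine hf _ h1 (fun j => y (j + 1)) ⟨fun j hj => ⟨(hy.1 (j + 1) (by omega)).1, ?_⟩,
          fun i j hij hj => hy.2 (i + 1) (j + 1) (by omega) (by omega)⟩
        have h3 : Nat.land mask (V4 a b c d) = mask &&& V4 a b c d := rfl
        have h4 := hy.1 (j + 1) (by omega)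
        rw [h3, Nat.testBit_and, h4.2, Bool.true_and,
          V4_spec (by omega) (by omega) (by omega) (by omega) h4.1]
        exact three_mono (fun h => by omega) (fun h => by omega) (fun h => by omega) (fun h => by omega)
          (hy.2 0 (j + 1) (by omega) (by omega))
      · refine ih _ h2 y hy ?_
        have h3 : Nat.xor rem (Nat.land rem (Dn4 a b c d)) = rem ^^^ (rem &&& Dn4 a b c d) := rfl
        rw [h3, Nat.testBit_xor, Nat.testBit_and, h0]
        rw [Bool.not_eq_true] at hD
        rw [hD]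
        rfl
    · have h1 : rem = 0 := Nat.eq_of_beq_eq_true hb
      rw [h1] at h0
      simp at h0

theorem search_sound : ∀ k mask : ℕ, search k mask = true → ∀ y, ¬ Chain k mask y := by
  intro k
  induction k with
  | zero => intro mask h; simp [search] at h
  | succ k ih =>
    intro mask h y hy
    exact loop_sound ih mask 64 mask h y hy (hy.1 0 (by omega)).2

theorem dig_code {p q r s : ℕ} (hp : p ≤ 5) (hq : q ≤ 5) (hr : r ≤ 5) (hs : s ≤ 5) :
    dig 0 (p + 6 * q + 36 * r + 216 * s) = p ∧ dig 1 (p + 6 * q + 36 * r + 216 * s) = q ∧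
    dig 2 (p + 6 * q + 36 * r + 216 * s) = r ∧ dig 3 (p + 6 * q + 36 * r + 216 * s) = s := by
  refine ⟨?_, ?_, ?_, ?_⟩
  · change (p + 6 * q + 36 * r + 216 * s) / 1 % 6 = p
    omega
  · change (p + 6 * q + 36 * r + 216 * s) / 6 % 6 = q
    omega
  · change (p + 6 * q + 36 * r + 216 * s) / 36 % 6 = r
    omega
  · change (p + 6 * q + 36 * r + 216 * s) / 216 % 6 = s
    omega

theorem land_eq (a b : ℕ) : Nat.land a b = a &&& b := rfl

theorem exists_perm : ∀ e f : Fin 4, ∃ σ : Equiv.Perm (Fin 4), σ 3 = e ∧ (f = e ∨ σ 0 = f) := by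
  decide +kernel

/-- There are no ten vectors with four entries in `{0, ..., 5}` such that for `a < b` the vector `x b` is larger than
the vector `x a` in all coordinates but possibly `c a b`. -/
theorem no_ten (x : ℕ → Fin 4 → ℕ) (hx : ∀ a i, x a i ≤ 5) (c : ℕ → ℕ → Fin 4)
    (h : ∀ a b, a < b → b < 10 → ∀ i, i ≠ c a b → x a i < x b i) : False := by
  obtain ⟨σ, h1, h2⟩ := exists_perm (c 8 9) (c 7 8)
  let y : ℕ → ℕ := fun a => x (9 - a) (σ 0) + 6 * x (9 - a) (σ 1) + 36 * x (9 - a) (σ 2) + 216 * x (9 - a) (σ 3)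
  have hdig := fun a => dig_code (hx (9 - a) (σ 0)) (hx (9 - a) (σ 1)) (hx (9 - a) (σ 2)) (hx (9 - a) (σ 3))
  have hy : ∀ a, y a < 1296 := by
    intro a
    have := hx (9 - a) (σ 0)
    have := hx (9 - a) (σ 1)
    have := hx (9 - a) (σ 2)
    have := hx (9 - a) (σ 3)
    simp only [y]
    omega
  have hlt : ∀ a b, a < b → b < 10 → lt3 (y b) (y a) := by
    intro a b hab hb
    unfold lt3
    rw [(hdig a).1, (hdig a).2.1, (hdig a).2.2.1, (hdig a).2.2.2, (hdig b).1, (hdig b).2.1, (hdig b).2.2.1,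
      (hdig b).2.2.2]
    have h3 := h (9 - b) (9 - a) (by omega) (by omega)
    obtain ⟨t, ht⟩ : ∃ t, σ t = c (9 - b) (9 - a) := σ.surjective _
    rw [← ht] at h3
    have h4 : ∀ i, i ≠ t → x (9 - b) (σ i) < x (9 - a) (σ i) := fun i hi => h3 (σ i) (fun h => hi (σ.injective h))
    unfold three
    fin_cases t
    · exact Or.inr ⟨Or.inr (h4 1 (by decide)), h4 2 (by decide), h4 3 (by decide)⟩
    · exact Or.inr ⟨Or.inl (h4 0 (by decide)), h4 2 (by decide), h4 3 (by decide)⟩
    · exact Or.inl ⟨h4 0 (by decide), h4 1 (by decide), Or.inr (h4 3 (by decide))⟩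
    · exact Or.inl ⟨h4 0 (by decide), h4 1 (by decide), Or.inl (h4 2 (by decide))⟩
  -- the first two vectors
  have hs : ∀ i, i ≠ 3 → x 8 (σ i) < x 9 (σ i) := fun i hi => h 8 9 (by omega) (by omega) (σ i)
    (fun h => hi (σ.injective (h.trans h1.symm)))
  have b0 := hx 9 (σ 0)
  have b1 := hx 9 (σ 1)
  have b2 := hx 9 (σ 2)
  have b3 := hx 8 (σ 3)
  have s0 := hs 0 (by decide)
  have s1 := hs 1 (by decide)
  have s2 := hs 2 (by decide)
  have hA : ∀ b, 0 < b → b < 10 → (V4 5 5 5 5).testBit (y b) = true := by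
    intro b hb hb'
    rw [V4_spec (by omega) (by omega) (by omega) (by omega) (hy b)]
    have h5 := hlt 0 b hb hb'
    unfold lt3 at h5
    rw [(hdig 0).1, (hdig 0).2.1, (hdig 0).2.2.1, (hdig 0).2.2.2] at h5
    refine three_mono (fun h => ?_) (fun h => ?_) (fun h => ?_) (fun h => ?_) h5
    · have := hx (9 - 0) (σ 0); omega
    · have := hx (9 - 0) (σ 1); omega
    · have := hx (9 - 0) (σ 2); omega
    · have := hx (9 - 0) (σ 3); omega
  have hB : ∀ b, 1 < b → b < 10 → (V4 4 4 4 5).testBit (y b) = true := by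
    intro b hb hb'
    rw [V4_spec (by omega) (by omega) (by omega) (by omega) (hy b)]
    have h5 := hlt 1 b hb hb'
    unfold lt3 at h5
    rw [(hdig 1).1, (hdig 1).2.1, (hdig 1).2.2.1, (hdig 1).2.2.2] at h5
    refine three_mono (fun h => ?_) (fun h => ?_) (fun h => ?_) (fun h => ?_) h5
    · change _ < x 8 (σ 0) at h; omega
    · change _ < x 8 (σ 1) at h; omega
    · change _ < x 8 (σ 2) at h; omega
    · change _ < x 8 (σ 3) at h; omega
  rcases h2 with h2 | h2
  · -- the same coordinate is exceptional twice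
    have ht : ∀ i, i ≠ 3 → x 7 (σ i) < x 8 (σ i) := fun i hi => h 7 8 (by omega) (by omega) (σ i)
      (fun h => hi (σ.injective (h.trans (h2.trans h1.symm))))
    have t0 := ht 0 (by decide)
    have t1 := ht 1 (by decide)
    have t2 := ht 2 (by decide)
    have t3 := hx 7 (σ 3)
    have hs := search_A
    rw [force_eq] at hs
    refine search_sound 7 _ hs (fun j => y (j + 3)) ⟨fun j hj => ⟨hy _, ?_⟩,
      fun i j hij hj => hlt _ _ (by omega) (by omega)⟩
    rw [land_eq, land_eq, Nat.testBit_and, Nat.testBit_and, hA _ (by omega) (by omega), hB _ (by omega) (by omega),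
      Bool.true_and, Bool.true_and, V4_spec (by omega) (by omega) (by omega) (by omega) (hy _)]
    have h5 := hlt 2 (j + 3) (by omega) (by omega)
    unfold lt3 at h5
    rw [(hdig 2).1, (hdig 2).2.1, (hdig 2).2.2.1, (hdig 2).2.2.2] at h5
    refine three_mono (fun h => ?_) (fun h => ?_) (fun h => ?_) (fun h => ?_) h5
    · change _ < x 7 (σ 0) at h; omega
    · change _ < x 7 (σ 1) at h; omega
    · change _ < x 7 (σ 2) at h; omega
    · change _ < x 7 (σ 3) at h; omega
  · have ht : ∀ i, i ≠ 0 → x 7 (σ i) < x 8 (σ i) := fun i hi => h 7 8 (by omega) (by omega) (σ i)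
      (fun h => hi (σ.injective (h.trans h2.symm)))
    have t1 := ht 1 (by decide)
    have t2 := ht 2 (by decide)
    have t3 := ht 3 (by decide)
    have t0 := hx 7 (σ 0)
    have hs := search_B
    rw [force_eq] at hs
    refine search_sound 7 _ hs (fun j => y (j + 3)) ⟨fun j hj => ⟨hy _, ?_⟩,
      fun i j hij hj => hlt _ _ (by omega) (by omega)⟩
    rw [land_eq, land_eq, Nat.testBit_and, Nat.testBit_and, hA _ (by omega) (by omega), hB _ (by omega) (by omega),
      Bool.true_and, Bool.true_and, V4_spec (by omega) (by omega) (by omega) (by omega) (hy _)]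
    have h5 := hlt 2 (j + 3) (by omega) (by omega)
    unfold lt3 at h5
    rw [(hdig 2).1, (hdig 2).2.1, (hdig 2).2.2.1, (hdig 2).2.2.2] at h5
    refine three_mono (fun h => ?_) (fun h => ?_) (fun h => ?_) (fun h => ?_) h5
    · change _ < x 7 (σ 0) at h; omega
    · change _ < x 7 (σ 1) at h; omega
    · change _ < x 7 (σ 2) at h; omega
    · change _ < x 7 (σ 3) at h; omega

end Pool.Agent.R72.VecSearch
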